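import Pool.Agent.WSR.All

set_option autoImplicit false

/-!
# The number of regions of the Wang-Shi split

`R b d` is the number of regions of the Wang-Shi split `WS_d` of the triangle with the vertices
`b 0`, `b 1`, `b 2`.  With `P(d) = 1 + 3d(d-1) + (3/4) d (d-1)^2 (3d-2)` we prove
`P(d) - C_ε d^(3+ε) ≤ R_d ≤ P(d)`; in particular `R_d / d^4 → 9/4`.
-/

open scoped Topology

namespace Pool.Agent.Results.MP_968b5d_co.QuarticAsymptotics

open Pool.Agent.WSR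

/-- Upper bound `R_d ≤ P(d)`, lower bound `R_d ≥ P(d) - C d^(3+ε)`, and `R_d / d^4 → 9/4`, for
every triangle. -/
theorem result :
    (∀ (d : ℕ) (b : AffineBasis (Fin 3) ℝ E2), 1 ≤ d →
      Finite (ConnectedComponents (body b d)) ∧ (R b d : ℝ) ≤ Pd d) ∧
    (∀ ε : ℝ, 0 < ε → ∃ C : ℝ, ∀ (d : ℕ) (b : AffineBasis (Fin 3) ℝ E2), 1 ≤ d →
      Pd d - C * (d : ℝ) ^ (3 + ε) ≤ (R b d : ℝ)) ∧
    (∀ b : AffineBasis (Fin 3) ℝ E2, Filter.Tendsto (fun d : ℕ => (R b d : ℝ) / (d : ℝ) ^ 4)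
      Filter.atTop (𝓝 (9 / 4))) :=
  all_fin

end Pool.Agent.Results.MP_968b5d_co.QuarticAsymptotics
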